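import Mathlib
import Pool.Agent.Q2.PM.Stm

/-! Project PM (helper2), job B10 (helper77). -/

set_option autoImplicit false

namespace Q77.PM_B10

open Subgroup Q2.PM
open Q2.TN (IsPNil IsSyl IsChief Nm)

/-- one inclusion is enough for the normalizer in a finite group -/
theorem mem_Nm {G : Type} [Group G] [Finite G] (H : Subgroup G) (y : G)
    (h : ∀ x ∈ H, y⁻¹ * x * y ∈ H) : y ∈ Nm H := by
  have h1 : H.map (MulAut.conj y⁻¹).toMonoidHom ≤ H := by
    rintro _ ⟨x, hx, rfl⟩
    simpa using h x hx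
  have h2 : H.map (MulAut.conj y⁻¹).toMonoidHom = H := by
    apply Subgroup.eq_of_le_of_card_ge h1
    rw [Subgroup.card_map_of_injective (MulAut.conj y⁻¹).injective]
  rw [Subgroup.mem_normalizer_iff]
  intro x
  constructor
  · intro hx
    have hx' : x ∈ H.map (MulAut.conj y⁻¹).toMonoidHom := by rw [h2]; exact hx
    obtain ⟨z, hz, hzx⟩ := hx'
    have : y * x * y⁻¹ = z := by
      rw [← hzx]; simp; group
    rw [this]; exact hz
  · intro hx
    have := h _ hx
    have e : y⁻¹ * (y * x * y⁻¹) * y = x := by group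
    rwa [e] at this

theorem pow_comm {G : Type} [Group G] (x c y : G) (h1 : x * y = y * (x * c)) (h2 : c * y = y * c)
    (j : ℕ) : x * y ^ j = y ^ j * (x * c ^ j) := by
  induction j with
  | zero => simp
  | succ j ih =>
    have h3 : c ^ j * y = y * c ^ j := (Commute.pow_left (show Commute c y from h2) j)
    calc x * y ^ (j + 1) = (x * y ^ j) * y := by rw [pow_succ]; group
      _ = y ^ j * x * (c ^ j * y) := by rw [ih]; group
      _ = y ^ j * (x * y) * c ^ j := by rw [h3]; group
      _ = y ^ j * (y * (x * c)) * c ^ j := by rw [h1]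
      _ = y ^ (j + 1) * (x * c ^ (j + 1)) := by rw [pow_succ, pow_succ' c]; group

/-- an element of a 2-group killed by an odd power is trivial -/
theorem odd_pow {G : Type} [Group G] (X : Subgroup G) (hX : IsPGroup 2 X) (c : G) (hc : c ∈ X) (m : ℕ)
    (hm : Odd m) (h : c ^ m = 1) : c = 1 := by
  obtain ⟨k, hk⟩ := hX ⟨c, hc⟩
  have hk' : c ^ (2 ^ k) = 1 := by
    have := congrArg Subtype.val hk
    simpa using this
  have h1 : orderOf c ∣ m := orderOf_dvd_of_pow_eq_one h
  have h2 : orderOf c ∣ 2 ^ k := orderOf_dvd_of_pow_eq_one hk'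
  have h3 : Nat.Coprime m (2 ^ k) := by
    apply Nat.Coprime.pow_right
    exact (Nat.coprime_two_right).2 hm
  have h4 : orderOf c ∣ 1 := by
    have := Nat.dvd_gcd h1 h2
    rwa [h3] at this
  exact orderOf_eq_one_iff.1 (Nat.dvd_one.1 h4)

/-- the commutator trick -/
theorem comm_of {G : Type} [Group G] (X : Subgroup G) (hX : IsPGroup 2 X) (x y : G) (m : ℕ) (hm : Odd m)
    (hy : y ^ m = 1) (hc : x⁻¹ * y⁻¹ * x * y ∈ X) (h2 : (x⁻¹ * y⁻¹ * x * y) * y = y * (x⁻¹ * y⁻¹ * x * y)) :
    x * y = y * x := by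
  have h3 := pow_comm x (x⁻¹ * y⁻¹ * x * y) y (by group) h2 m
  rw [hy] at h3
  have h4 : (x⁻¹ * y⁻¹ * x * y) ^ m = 1 := by
    have : x * 1 = x * (x⁻¹ * y⁻¹ * x * y) ^ m := by rw [mul_one] at h3 ⊢; rw [one_mul] at h3; exact h3
    exact (mul_left_cancel this).symm
  have h5 := odd_pow X hX _ hc m hm h4
  calc x * y = y * x * (x⁻¹ * y⁻¹ * x * y) := by group
    _ = y * x := by rw [h5, mul_one]

/-- the subgroup generated by the squares is proper -/
theorem sq_ne {G : Type} [Group G] [Finite G] (X : Subgroup G) (hX : IsPGroup 2 X) (h1 : X ≠ ⊥) :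
    closure {z : G | ∃ x ∈ X, z = x * x} ≠ X := by
  obtain ⟨n, hn⟩ := IsPGroup.iff_card.1 hX
  have hn0 : n ≠ 0 := by
    rintro rfl
    apply h1
    apply Subgroup.eq_bot_of_card_eq
    simpa using hn
  obtain ⟨n, rfl⟩ := Nat.exists_eq_succ_of_ne_zero hn0
  have : Fact (Nat.Prime 2) := ⟨Nat.prime_two⟩
  obtain ⟨M, hM⟩ := Sylow.exists_subgroup_card_pow_prime (G := X) 2 (n := n) (by
    rw [hn]; exact pow_dvd_pow 2 (Nat.le_succ n))
  have hi : M.index = 2 := by
    have h2 := M.card_mul_index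
    rw [hM, hn, pow_succ] at h2
    exact Nat.eq_of_mul_eq_mul_left (by positivity) h2
  intro he
  have h3 : closure {z : G | ∃ x ∈ X, z = x * x} ≤ M.map X.subtype := by
    rw [closure_le]
    rintro z ⟨x, hx, rfl⟩
    exact ⟨⟨x, hx⟩ * ⟨x, hx⟩, Subgroup.mul_self_mem_of_index_two hi _, rfl⟩
  rw [he] at h3
  have h4 : M = ⊤ := by
    rw [eq_top_iff]
    rintro ⟨x, hx⟩ -
    obtain ⟨w, hw, hwx⟩ := h3 hx
    have : w = ⟨x, hx⟩ := Subtype.ext hwx
    rwa [this] at hw
  rw [h4, index_top] at hi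
  omega

/-- fourth powers when squares (hence commutators) are central -/
theorem pow_four {G : Type} [Group G] (X : Subgroup G)
    (hc : ∀ u ∈ closure {z : G | ∃ x ∈ X, z = x * x}, ∀ x ∈ X, u * x = x * u) (u v : G) (hu : u ∈ X)
    (hv : v ∈ X) : (u * v) ^ 4 = u ^ 4 * v ^ 4 := by
  have sq : ∀ w ∈ X, w * w ∈ closure {z : G | ∃ x ∈ X, z = x * x} := fun w hw => subset_closure ⟨w, hw, rfl⟩
  obtain ⟨k, hk⟩ : ∃ k, k = v⁻¹ * u⁻¹ * v * u := ⟨_, rfl⟩
  have hkc : k ∈ closure {z : G | ∃ x ∈ X, z = x * x} := by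
    have e : k = (v * v)⁻¹ * ((v * u⁻¹) * (v * u⁻¹)) * (u * u) := by rw [hk]; group
    rw [e]
    exact mul_mem (mul_mem (inv_mem (sq v hv)) (sq _ (mul_mem hv (inv_mem hu)))) (sq u hu)
  have hvu : v * u = u * v * k := by rw [hk]; group
  have ku : k * u = u * k := hc k hkc u hu
  have kv : k * v = v * k := hc k hkc v hv
  have uu : ∀ x ∈ X, u * u * x = x * (u * u) := hc _ (sq u hu)
  have vv : ∀ x ∈ X, v * v * x = x * (v * v) := hc _ (sq v hv)
  have k2 : k * k = 1 := by
    have e1 : v * (u * u) = u * u * v * (k * k) := by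
      calc v * (u * u) = (v * u) * u := by group
        _ = u * v * (k * u) := by rw [hvu]; group
        _ = u * (v * u) * k := by rw [ku]; group
        _ = u * (u * v * k) * k := by rw [hvu]
        _ = u * u * v * (k * k) := by group
    have e2 : u * u * v * 1 = u * u * v * (k * k) := by rw [← e1, ← uu v hv, mul_one]
    exact (mul_left_cancel e2).symm
  have e3 : (u * v) * (u * v) = u * u * (v * v) * k := by
    calc (u * v) * (u * v) = u * (v * u) * v := by group
      _ = u * u * v * (k * v) := by rw [hvu]; group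
      _ = u * u * (v * v) * k := by rw [kv]; group
  have kk : ∀ x ∈ X, k * x = x * k := hc k hkc
  calc (u * v) ^ 4 = ((u * v) * (u * v)) * ((u * v) * (u * v)) := by rw [pow_succ, pow_succ, pow_succ, pow_one]; group
    _ = u * u * (v * v) * (k * (u * u * (v * v))) * k := by rw [e3]; group
    _ = u * u * (v * v) * (u * u * (v * v) * k) * k := by rw [kk _ (mul_mem (mul_mem hu hu) (mul_mem hv hv))]
    _ = u * u * ((v * v) * (u * u)) * (v * v) * (k * k) := by group
    _ = u * u * ((u * u) * (v * v)) * (v * v) * 1 := by rw [vv _ (mul_mem hu hu), k2]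
    _ = u ^ 4 * v ^ 4 := by
      rw [mul_one, show u ^ 4 = u * u * (u * u) by rw [pow_succ, pow_succ, pow_succ, pow_one]; group,
        show v ^ 4 = v * v * (v * v) by rw [pow_succ, pow_succ, pow_succ, pow_one]; group]
      group

theorem aux {G : Type} [Group G] [Finite G] (y : G) (m : ℕ) (hm : Odd m) (hy : y ^ m = 1) :
    ∀ n : ℕ, ∀ X : Subgroup G, Nat.card X = n → IsPGroup 2 X → y ∈ Nm X →
      (∀ x ∈ X, x ^ 4 = 1 → x * y = y * x) → ∀ x ∈ X, x * y = y * x := by
  intro n
  induction n using Nat.strong_induction_on with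
  | _ n ih =>
    intro X hn hX hyX h4
    -- proper subgroups normalized by `y` are centralized
    have key : ∀ Y : Subgroup G, Y ≤ X → Y ≠ X → y ∈ Nm Y → ∀ x ∈ Y, x * y = y * x := by
      intro Y hY hne hyY
      refine ih (Nat.card Y) ?_ Y rfl (hX.to_le hY) hyY fun x hx => h4 x (hY hx)
      rw [← hn]
      exact lt_of_le_of_ne (Subgroup.card_le_of_le hY) fun h => hne (Subgroup.eq_of_le_of_card_ge hY h.ge)
    have hcj : ∀ x ∈ X, y⁻¹ * x * y ∈ X := by
      intro x hx
      have := (Subgroup.mem_normalizer_iff.1 (inv_mem hyX) x).1 hx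
      simpa using this
    by_cases hb : X = ⊥
    · intro x hx
      rw [hb, mem_bot] at hx
      simp [hx]
    have hcX : ∀ x ∈ X, x⁻¹ * y⁻¹ * x * y ∈ X := by
      intro x hx
      have e : x⁻¹ * y⁻¹ * x * y = x⁻¹ * (y⁻¹ * x * y) := by group
      rw [e]
      exact mul_mem (inv_mem hx) (hcj x hx)
    let X₀ : Subgroup G := closure {z : G | ∃ x ∈ X, z = x⁻¹ * y⁻¹ * x * y}
    have hX₀ : X₀ ≤ X := by
      rw [closure_le]
      rintro z ⟨x, hx, rfl⟩
      exact hcX x hx
    by_cases h0 : X₀ = X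
    swap
    · -- commutators commute with `y`
      have hN : y ∈ Nm X₀ := by
        apply mem_Nm
        intro z hz
        induction hz using closure_induction with
        | mem z hz =>
          obtain ⟨x, hx, rfl⟩ := hz
          exact subset_closure ⟨y⁻¹ * x * y, hcj x hx, by group⟩
        | one => simp [one_mem]
        | mul a b _ _ ha hb =>
          have e : y⁻¹ * (a * b) * y = (y⁻¹ * a * y) * (y⁻¹ * b * y) := by group
          rw [e]; exact mul_mem ha hb
        | inv a _ ha =>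
          have e : y⁻¹ * a⁻¹ * y = (y⁻¹ * a * y)⁻¹ := by group
          rw [e]; exact inv_mem ha
      intro x hx
      exact comm_of X hX x y m hm hy (hcX x hx) (key X₀ hX₀ h0 hN _ (subset_closure ⟨x, hx, rfl⟩))
    -- the Frattini subgroup
    let Φ : Subgroup G := closure {z : G | ∃ x ∈ X, z = x * x}
    have hΦ : Φ ≤ X := by
      rw [closure_le]
      rintro z ⟨x, hx, rfl⟩
      exact mul_mem hx hx
    have hΦc : ∀ g : G, (∀ x ∈ X, g⁻¹ * x * g ∈ X) → ∀ u ∈ Φ, g⁻¹ * u * g ∈ Φ := by
      intro g hg u hu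
      induction hu using closure_induction with
      | mem z hz =>
        obtain ⟨x, hx, rfl⟩ := hz
        exact subset_closure ⟨g⁻¹ * x * g, hg x hx, by group⟩
      | one => simp [one_mem]
      | mul a b _ _ ha hb =>
        have e : g⁻¹ * (a * b) * g = (g⁻¹ * a * g) * (g⁻¹ * b * g) := by group
        rw [e]; exact mul_mem ha hb
      | inv a _ ha =>
        have e : g⁻¹ * a⁻¹ * g = (g⁻¹ * a * g)⁻¹ := by group
        rw [e]; exact inv_mem ha
    have hΦy : ∀ u ∈ Φ, u * y = y * u :=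
      key Φ hΦ (sq_ne X hX hb) (mem_Nm Φ y (hΦc y hcj))
    have hcent : ∀ u ∈ Φ, ∀ x ∈ X, u * x = x * u := by
      intro u hu x hx
      rw [← h0] at hx
      induction hx using closure_induction with
      | mem z hz =>
        obtain ⟨x, hx, rfl⟩ := hz
        -- `x * u * x⁻¹` lies in `Φ` and commutes with `y`
        have h5 : x * u * x⁻¹ ∈ Φ := by
          have := hΦc x⁻¹ (fun w hw => mul_mem (mul_mem (inv_mem (inv_mem hx)) hw) (inv_mem hx)) u hu
          simpa using this
        have h6 := hΦy _ h5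
        have h7 := hΦy _ hu
        have h8 : u * (x⁻¹ * y⁻¹ * x) = (x⁻¹ * y⁻¹ * x) * u := by
          have h9 : (x * u * x⁻¹) * y⁻¹ = y⁻¹ * (x * u * x⁻¹) :=
            (Commute.inv_right (show Commute (x * u * x⁻¹) y from h6))
          calc u * (x⁻¹ * y⁻¹ * x) = x⁻¹ * ((x * u * x⁻¹) * y⁻¹) * x := by group
            _ = x⁻¹ * (y⁻¹ * (x * u * x⁻¹)) * x := by rw [h9]
            _ = (x⁻¹ * y⁻¹ * x) * u := by group
        calc u * (x⁻¹ * y⁻¹ * x * y) = (u * (x⁻¹ * y⁻¹ * x)) * y := by group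
          _ = (x⁻¹ * y⁻¹ * x) * (u * y) := by rw [h8]; group
          _ = (x⁻¹ * y⁻¹ * x) * (y * u) := by rw [h7]
          _ = (x⁻¹ * y⁻¹ * x * y) * u := by group
      | one => simp
      | mul a b _ _ ha hb => rw [← mul_assoc, ha, mul_assoc, hb, mul_assoc]
      | inv a _ ha => exact (Commute.inv_right (show Commute u a from ha))
    -- all of `X` has exponent 4
    have hexp : ∀ x ∈ X, x ^ 4 = 1 := by
      intro x hx
      have hx' := hx
      rw [← h0] at hx'
      induction hx' using closure_induction with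
      | mem z hz =>
        obtain ⟨w, hw, rfl⟩ := hz
        have hcw := hcX w hw
        have e1 : y⁻¹ * w * y = w * (w⁻¹ * y⁻¹ * w * y) := by group
        have e2 : (y⁻¹ * w * y) ^ 4 = y⁻¹ * w ^ 4 * y := by
          rw [pow_succ, pow_succ, pow_succ, pow_one, pow_succ, pow_succ, pow_succ, pow_one]; group
        have h5 : w ^ 4 ∈ Φ := by
          have : w ^ 4 = (w * w) * (w * w) := by rw [pow_succ, pow_succ, pow_succ, pow_one]; group
          rw [this]
          exact mul_mem (subset_closure ⟨w, hw, rfl⟩) (subset_closure ⟨w, hw, rfl⟩)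
        have h6 := hΦy _ h5
        have e3 : y⁻¹ * w ^ 4 * y = w ^ 4 := by rw [mul_assoc, h6]; group
        have e4 := pow_four X hcent w (w⁻¹ * y⁻¹ * w * y) hw hcw
        rw [← e1, e2, e3] at e4
        have e5 : w ^ 4 * 1 = w ^ 4 * (w⁻¹ * y⁻¹ * w * y) ^ 4 := by rw [mul_one]; exact e4
        exact (mul_left_cancel e5).symm
      | one => simp
      | mul a b ha' hb' ha hb =>
        have ha1 : a ∈ X := by rw [← h0]; exact ha'
        have hb1 : b ∈ X := by rw [← h0]; exact hb'
        rw [pow_four X hcent a b ha1 hb1, ha ha1, hb hb1, one_mul]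
      | inv a ha' ha =>
        have ha1 : a ∈ X := by rw [← h0]; exact ha'
        rw [inv_pow, ha ha1, inv_one]
    intro x hx
    exact h4 x hx (hexp x hx)

theorem b10 : S_B10 := by
  intro G _ _ X y m hX hyX hm hy h4
  exact aux y m hm hy _ X rfl hX hyX h4

end Q77.PM_B10
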