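import Mathlib
import Pool.Agent.Q2.PM.Stm
import Pool.Agent.Q77.PM_B10
import Pool.Agent.Q214.TN.A56
import Pool.Agent.Q40.TN_B1
import Pool.Agent.Q18.TN_B2

/-! Project PM (helper2), job B11 (helper77). -/

set_option autoImplicit false

namespace Q77.PM_B11

open Subgroup Q2.PM
open Q2.TN (IsPNil IsSyl IsChief Nm)
open Q77.PM_B10 (mem_Nm odd_pow)

/-- the hypothesis -/
def HH (G : Type) [Group G] : Prop :=
  ∀ (X : Subgroup G) (y : G) (m : ℕ), IsPGroup 2 X → y ∈ Nm X → Odd m → y ^ m = 1 →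
    ∀ x ∈ X, x * y = y * x

theorem conj_mem {G : Type} [Group G] (X : Subgroup G) (y : G) (h : y ∈ Nm X) : ∀ x ∈ X, y⁻¹ * x * y ∈ X := by
  intro x hx
  have := (Subgroup.mem_normalizer_iff.1 (inv_mem h) x).1 hx
  simpa using this

theorem HH_sub {G : Type} [Group G] [Finite G] (h : HH G) (M : Subgroup G) : HH M := by
  intro X y m hX hy hm hym x hx
  have h1 := h (X.map M.subtype) (y : G) m (hX.map _) (by
    apply mem_Nm
    rintro _ ⟨z, hz, rfl⟩
    exact ⟨y⁻¹ * z * y, conj_mem X y hy z hz, by simp⟩) hm (by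
      have := congrArg Subtype.val hym
      simpa using this) (x : G) ⟨x, hx, rfl⟩
  exact Subtype.ext h1

theorem HH_quo {G : Type} [Group G] [Finite G] (h : HH G) (X : Subgroup G) [X.Normal] (hX : IsPGroup 2 X) :
    HH (G ⧸ X) := by
  intro X' y' m hX' hy' hm hym x' hx'
  obtain ⟨g, rfl⟩ := QuotientGroup.mk'_surjective X y'
  obtain ⟨x, rfl⟩ := QuotientGroup.mk'_surjective X x'
  have hY : IsPGroup 2 (X'.comap (QuotientGroup.mk' X)) := by
    apply IsPGroup.comap_of_ker_isPGroup hX'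
    rw [QuotientGroup.ker_mk']
    exact hX
  have hgm : g ^ m ∈ X := by
    have h1 : (QuotientGroup.mk' X) (g ^ m) = 1 := by rw [map_pow]; exact hym
    rw [← MonoidHom.mem_ker, QuotientGroup.ker_mk'] at h1
    exact h1
  obtain ⟨s, hs⟩ := hX ⟨g ^ m, hgm⟩
  have hs' : (g ^ m) ^ (2 ^ s) = 1 := by
    have := congrArg Subtype.val hs
    simpa using this
  have hm0 : 0 < m := hm.pos
  have hco : Nat.Coprime (2 ^ s) m := Nat.Coprime.pow_left s ((Nat.coprime_two_left).2 hm)
  have hphi : 0 < Nat.totient m := Nat.totient_pos.2 hm0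
  obtain ⟨t, ht⟩ := Nat.exists_eq_succ_of_ne_zero hphi.ne'
  have he : (2 ^ s) ^ Nat.totient m ≡ 1 [MOD m] := Nat.ModEq.pow_totient hco
  set e : ℕ := (2 ^ s) ^ Nat.totient m with hedef
  have hy : (g ^ e) ^ m = 1 := by
    have e1 : (g ^ e) ^ m = ((g ^ m) ^ (2 ^ s)) ^ ((2 ^ s) ^ t) := by
      rw [← pow_mul, ← pow_mul, ← pow_mul, hedef, ht, Nat.succ_eq_add_one, pow_succ]
      congr 1
      ring
    rw [e1, hs', one_pow]
  have hpe : (QuotientGroup.mk' X) (g ^ e) = (QuotientGroup.mk' X) g := by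
    rw [map_pow]
    have h1 : orderOf ((QuotientGroup.mk' X) g) ∣ m := orderOf_dvd_of_pow_eq_one hym
    have h2 : ((QuotientGroup.mk' X) g) ^ e = ((QuotientGroup.mk' X) g) ^ 1 :=
      pow_eq_pow_iff_modEq.2 (he.of_dvd h1)
    rw [h2, pow_one]
  have h3 := h (X'.comap (QuotientGroup.mk' X)) (g ^ e) m hY (by
    apply mem_Nm
    intro z hz
    rw [Subgroup.mem_comap] at hz ⊢
    rw [map_mul, map_mul, map_inv, hpe]
    exact conj_mem X' _ hy' _ hz) hm hy x hx'
  have h4 := congrArg (QuotientGroup.mk' X) h3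
  rw [map_mul, map_mul, hpe] at h4
  exact h4

theorem step {G : Type} [Group G] [Finite G] (h : HH G) (X : Subgroup G) [X.Normal] (hX : IsPGroup 2 X)
    (hQ : IsPNil 2 (G ⧸ X)) : IsPNil 2 G := by
  obtain ⟨N, hN, hc, k, hk⟩ := hQ
  let F : Subgroup G := N.comap (QuotientGroup.mk' X)
  have hF : F.Normal := hN.comap _
  have hFi : F.index = 2 ^ k := by
    rw [← hk]
    exact Subgroup.index_comap_of_surjective N (QuotientGroup.mk'_surjective X)
  have hXF : X ≤ F := by
    intro x hx
    rw [Subgroup.mem_comap]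
    have : (QuotientGroup.mk' X) x = 1 := by
      rw [← MonoidHom.mem_ker, QuotientGroup.ker_mk']; exact hx
    rw [this]; exact one_mem _
  have hcF : Nat.card F = Nat.card N * Nat.card X := by
    have h1 := F.card_mul_index
    have h2 := N.card_mul_index
    have h3 : Nat.card G = Nat.card (G ⧸ X) * Nat.card X := Subgroup.card_eq_card_quotient_mul_card_subgroup X
    have h4 : Nat.card F * 2 ^ k = (Nat.card N * Nat.card X) * 2 ^ k := by
      rw [← hFi, h1, h3, ← h2, hk, hFi]; ring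
    exact Nat.eq_of_mul_eq_mul_right (by positivity) h4
  have hcX : Nat.card (X.subgroupOf F) = Nat.card X := by
    have := Nat.card_congr (Subgroup.subgroupOfEquivOfLe hXF).toEquiv
    exact this
  have hXpos : 0 < Nat.card X := Nat.card_pos
  have hi : (X.subgroupOf F).index = Nat.card N := by
    have h1 := (X.subgroupOf F).card_mul_index
    rw [hcX, hcF, mul_comm (Nat.card N)] at h1
    exact Nat.eq_of_mul_eq_mul_left hXpos h1
  obtain ⟨n, hn⟩ := IsPGroup.iff_card.1 hX
  have hodd : Odd (Nat.card N) := Nat.coprime_two_right.1 hc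
  have hcop : Nat.Coprime (Nat.card (X.subgroupOf F)) (X.subgroupOf F).index := by
    rw [hcX, hi, hn]
    exact Nat.Coprime.pow_left n (Nat.coprime_two_left.2 hodd)
  obtain ⟨H, hH⟩ := Subgroup.exists_right_complement'_of_coprime hcop
  have hcH : Nat.card H = Nat.card N := by
    rw [← hi]; exact hH.symm.index_eq_card.symm
  let O : Subgroup G := H.map F.subtype
  have hcO : Nat.card O = Nat.card N := by
    rw [← hcH]
    exact Subgroup.card_map_of_injective F.subtype_injective
  have hoddO : Odd (Nat.card O) := by rw [hcO]; exact hodd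
  have hOpow : ∀ z ∈ O, z ^ Nat.card O = 1 := by
    intro z hz
    have h1 : ((⟨z, hz⟩ : O) ^ Nat.card O : O).1 = 1 := by rw [pow_card_eq_one']; rfl
    exact h1
  have hOX : ∀ z ∈ O, ∀ x ∈ X, x * z = z * x := by
    intro z hz x hx
    refine h X z (Nat.card O) hX ?_ hoddO (hOpow z hz) x hx
    apply mem_Nm
    intro w hw
    have := (inferInstance : X.Normal).conj_mem w hw z⁻¹
    simpa using this
  have hall : ∀ z ∈ F, ∀ m : ℕ, Odd m → z ^ m = 1 → z ∈ O := by
    intro z hz m hm hzm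
    obtain ⟨⟨⟨l, hl⟩, ⟨o, ho⟩⟩, hlo⟩ := hH.2 ⟨z, hz⟩
    have hlX : (l : G) ∈ X := by
      have : l ∈ X.subgroupOf F := hl
      exact Subgroup.mem_subgroupOf.1 this
    have hoO : (o : G) ∈ O := ⟨o, ho, rfl⟩
    have hz' : z = (l : G) * (o : G) := by
      have := congrArg Subtype.val hlo
      simpa using this.symm
    have hcomm : Commute (l : G) (o : G) := hOX _ hoO _ hlX
    have h1 : z ^ (m * Nat.card O) = 1 := by rw [pow_mul, hzm, one_pow]
    rw [hz', hcomm.mul_pow, mul_comm m, pow_mul (o : G), hOpow _ hoO, one_pow, mul_one] at h1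
    have h2 : (l : G) = 1 := odd_pow X hX _ hlX _ (hoddO.mul hm) h1
    rw [hz', h2, one_mul]
    exact hoO
  have hON : O.Normal := by
    constructor
    intro z hz g
    have hzF : z ∈ F := by
      obtain ⟨w, -, rfl⟩ := hz
      exact w.2
    refine hall _ (hF.conj_mem z hzF g) (Nat.card O) hoddO ?_
    rw [conj_pow, hOpow z hz]
    group
  refine ⟨O, hON, ?_, n + k, ?_⟩
  · exact Nat.coprime_two_right.2 hoddO
  · have h1 := O.card_mul_index
    have h2 := F.card_mul_index
    rw [hcF, hFi, hn] at h2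
    rw [hcO, ← h2] at h1
    have h3 : Nat.card N * O.index = Nat.card N * 2 ^ (n + k) := by
      rw [h1, pow_add]; ring
    exact Nat.eq_of_mul_eq_mul_left Nat.card_pos h3

theorem main : ∀ n : ℕ, ∀ (G : Type) [Group G] [Finite G], Nat.card G = n → HH G → IsPNil 2 G := by
  intro n
  induction n using Nat.strong_induction_on with
  | _ n ih =>
    intro G _ _ hn h
    by_cases hc : ∀ X : Subgroup G, IsPGroup 2 X → X ≠ ⊥ → Nm X ≠ ⊤
    · refine Q214.TN.b3 Q40.TN_B1.b1 Q18.TN_B2.b2 2 Nat.prime_two G ?_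
      intro U hU hne
      refine ih (Nat.card (Nm U)) ?_ (Nm U) rfl (HH_sub h _)
      rw [← hn]
      have hle := Subgroup.card_le_card_group (Nm U)
      refine lt_of_le_of_ne hle fun he => hc U hU hne ?_
      exact Subgroup.eq_top_of_card_eq _ he
    · push Not at hc
      obtain ⟨X, hX, hne, htop⟩ := hc
      have hXn : X.Normal := Subgroup.normalizer_eq_top_iff.1 htop
      refine step h X hX (ih (Nat.card (G ⧸ X)) ?_ (G ⧸ X) rfl (HH_quo h X hX))
      have h3 : Nat.card G = Nat.card (G ⧸ X) * Nat.card X := Subgroup.card_eq_card_quotient_mul_card_subgroup X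
      rw [← hn, h3]
      have h4 : 1 < Nat.card X := (Subgroup.one_lt_card_iff_ne_bot X).2 hne
      have h5 : 0 < Nat.card (G ⧸ X) := Nat.card_pos
      nlinarith

theorem b11 : S_B11 := fun G _ _ h => main _ G rfl h

end Q77.PM_B11
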