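import Pool.Agent.Q61.MH.Stm

/-!
# Project MH: job OFF4
-/

set_option autoImplicit false

open Real

namespace Pool.Agent.Q77.MHOFF4

open Pool.Agent.Q61.MH

theorem S_pos (k : ℕ) (hk : 1 ≤ k) (r : ℝ) : 0 < S k r := by
  unfold S
  refine Finset.sum_pos (fun i _ => by positivity) ⟨0, Finset.mem_range.2 hk⟩

/-- `S k r ≥ k ^ (r + 1) / (r + 1)`. -/
theorem S_ge (k : ℕ) (r : ℝ) (hr : 0 ≤ r) : (k : ℝ) ^ (r + 1) / (r + 1) ≤ S k r := by
  have hr1 : 0 < r + 1 := by linarith
  rw [div_le_iff₀ hr1]
  induction k with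
  | zero => simp [S, Real.zero_rpow hr1.ne']
  | succ k ih =>
    have h1 : S (k + 1) r = S k r + ((k : ℝ) + 1) ^ r := by
      unfold S
      rw [Finset.sum_range_succ]
    rw [h1, add_mul]
    have hk1 : (0 : ℝ) < (k : ℝ) + 1 := by positivity
    have h2 : 1 + (r + 1) * (-(1 / ((k : ℝ) + 1))) ≤ (1 + (-(1 / ((k : ℝ) + 1)))) ^ (r + 1) := by
      apply one_add_mul_self_le_rpow_one_add
      · rw [neg_le_neg_iff, div_le_one hk1]
        have : (0 : ℝ) ≤ k := Nat.cast_nonneg k
        linarith
      · linarith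
    have h3 : (1 + (-(1 / ((k : ℝ) + 1)))) = (k : ℝ) / ((k : ℝ) + 1) := by
      field_simp
      ring
    rw [h3, Real.div_rpow (Nat.cast_nonneg k) hk1.le, le_div_iff₀ (Real.rpow_pos_of_pos hk1 _)] at h2
    have h4 : ((k : ℝ) + 1) ^ (r + 1) = ((k : ℝ) + 1) ^ r * ((k : ℝ) + 1) := by
      rw [Real.rpow_add hk1, Real.rpow_one]
    have h5 : (1 + (r + 1) * (-(1 / ((k : ℝ) + 1)))) * ((k : ℝ) + 1) ^ (r + 1) =
        ((k : ℝ) + 1) ^ (r + 1) - ((k : ℝ) + 1) ^ r * (r + 1) := by
      rw [h4]
      field_simp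
      ring
    rw [h5] at h2
    push_cast
    linarith

theorem off4 (h1 : S_sum3) (h2 : S_red) (h3 : S_var) : S_off4 := by
  intro r y k hr hyk hY
  have hyk' : (y : ℝ) + 2 ≤ k := by exact_mod_cast hyk
  have hy0 : (0 : ℝ) ≤ y := Nat.cast_nonneg y
  set m : ℝ := (k : ℝ) - y with hm
  have hm2 : 2 ≤ m := by rw [hm]; linarith
  -- k ≥ 5
  have hk5 : (5 : ℝ) ≤ k := by
    have h : (4 : ℝ) < k := by
      have : (k : ℝ) = m + y := by rw [hm]; ring
      nlinarith
    have h' : 4 < k := by exact_mod_cast h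
    exact_mod_cast h'
  set N : ℝ := (k : ℝ) + 1 / 2 with hN
  have hN0 : 0 < N := by rw [hN]; linarith
  have hN5 : 11 / 2 ≤ N := by rw [hN]; linarith
  have hr1 : 0 < r + 1 := by linarith
  have hmN : 5 * m < 2 * N := by
    have : (y : ℝ) = k - m := by rw [hm]; ring
    rw [this] at hY
    rw [hN]; linarith
  set τ : ℝ := m * (r + 1) / N with hτ
  have hτ0 : 0 < τ := by rw [hτ]; positivity
  have hbase : 0 < base r := by
    unfold base
    apply Real.rpow_pos_of_pos
    positivity
  by_cases h5 : τ ≤ 5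
  · have hD : 0 < 1 - τ ^ 2 / 96 - τ ^ 4 / 1536 - 0.0001 := by
      have e1 : τ ^ 2 ≤ 25 := by nlinarith
      have e2 : τ ^ 4 ≤ 625 := by nlinarith [sq_nonneg (τ ^ 2)]
      linarith
    have hk1 : 1 ≤ k := by omega
    have hs := h1 r k hr hk1
    rw [← hN] at hs
    have hNr : 0 < N ^ (r + 1) := Real.rpow_pos_of_pos hN0 _
    have key : N ^ (r + 1) / (r + 1) * (1 - τ ^ 2 / 96 - τ ^ 4 / 1536 - 0.0001) ≤ S k r := by
      refine le_trans ?_ hs
      -- the three error terms
      have t1 : (1 / 2 : ℝ) ^ (r + 1) ≤ 0.0001 * N ^ (r + 1) := by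
        have e1 : (1 / 2 : ℝ) ^ (r + 1) = (1 / (2 * N)) ^ (r + 1) * N ^ (r + 1) := by
          rw [← Real.mul_rpow (by positivity) hN0.le]
          congr 1
          field_simp
        rw [e1]
        refine mul_le_mul_of_nonneg_right ?_ hNr.le
        calc (1 / (2 * N)) ^ (r + 1) ≤ (1 / 11 : ℝ) ^ (r + 1) := by
              apply Real.rpow_le_rpow (by positivity) _ hr1.le
              rw [div_le_div_iff₀ (by positivity) (by norm_num)]
              linarith
          _ ≤ (1 / 11 : ℝ) ^ (4 : ℝ) := by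
              apply Real.rpow_le_rpow_of_exponent_ge (by norm_num) (by norm_num)
              linarith
          _ ≤ 0.0001 := by
              rw [show (4 : ℝ) = ((4 : ℕ) : ℝ) from by norm_num, Real.rpow_natCast]
              norm_num
      have e2 : N ^ (r + 1) = N ^ (r - 1) * N ^ 2 := by
        rw [← Real.rpow_natCast N 2, ← Real.rpow_add hN0]
        congr 1
        push_cast
        ring
      have e3 : N ^ (r + 1) = N ^ (r - 3) * N ^ 4 := by
        rw [← Real.rpow_natCast N 4, ← Real.rpow_add hN0]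
        congr 1
        push_cast
        ring
      have hτ2 : τ ^ 2 * N ^ 2 = m ^ 2 * (r + 1) ^ 2 := by
        rw [hτ]; field_simp
      have hτ4 : τ ^ 4 * N ^ 4 = m ^ 4 * (r + 1) ^ 4 := by
        rw [hτ]; field_simp
      have hm4 : 4 ≤ m ^ 2 := by nlinarith
      have hm16 : 16 ≤ m ^ 4 := by nlinarith [sq_nonneg (m ^ 2)]
      have t2 : r * N ^ (r - 1) / 24 ≤ N ^ (r + 1) / (r + 1) * (τ ^ 2 / 96) := by
        have e4 : N ^ (r + 1) / (r + 1) * (τ ^ 2 / 96) = N ^ (r - 1) * (m ^ 2 * (r + 1)) / 96 := by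
          rw [e2]
          have : N ^ (r - 1) * N ^ 2 / (r + 1) * (τ ^ 2 / 96) =
              N ^ (r - 1) * (τ ^ 2 * N ^ 2) / (r + 1) / 96 := by ring
          rw [this, hτ2]
          field_simp
        rw [e4]
        have hp : 0 < N ^ (r - 1) := Real.rpow_pos_of_pos hN0 _
        have e5 : 4 * r ≤ m ^ 2 * (r + 1) := by nlinarith
        have e6 : N ^ (r - 1) * (4 * r) ≤ N ^ (r - 1) * (m ^ 2 * (r + 1)) :=
          mul_le_mul_of_nonneg_left e5 hp.le
        linarith
      have t3 : r * (r - 1) * (r - 2) / 96 * N ^ (r - 3) ≤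
          N ^ (r + 1) / (r + 1) * (τ ^ 4 / 1536) := by
        have e4 : N ^ (r + 1) / (r + 1) * (τ ^ 4 / 1536) =
            N ^ (r - 3) * (m ^ 4 * (r + 1) ^ 3) / 1536 := by
          rw [e3]
          have : N ^ (r - 3) * N ^ 4 / (r + 1) * (τ ^ 4 / 1536) =
              N ^ (r - 3) * (τ ^ 4 * N ^ 4) / (r + 1) / 1536 := by ring
          rw [this, hτ4]
          field_simp
        rw [e4]
        have hp : 0 < N ^ (r - 3) := Real.rpow_pos_of_pos hN0 _
        have e5 : 16 * (r * (r - 1) * (r - 2)) ≤ m ^ 4 * (r + 1) ^ 3 := by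
          have e7 : r * (r - 1) * (r - 2) ≤ (r + 1) ^ 3 := by nlinarith [sq_nonneg r]
          have e8 : 0 ≤ (r + 1) ^ 3 := by positivity
          nlinarith
        have e6 : N ^ (r - 3) * (16 * (r * (r - 1) * (r - 2))) ≤
            N ^ (r - 3) * (m ^ 4 * (r + 1) ^ 3) := mul_le_mul_of_nonneg_left e5 hp.le
        linarith
      have t1' : (1 / 2 : ℝ) ^ (r + 1) / (r + 1) ≤ N ^ (r + 1) / (r + 1) * 0.0001 := by
        rw [div_mul_eq_mul_div, div_le_div_iff_of_pos_right hr1]
        linarith
      have e9 : N ^ (r + 1) / (r + 1) * (1 - τ ^ 2 / 96 - τ ^ 4 / 1536 - 0.0001) =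
          N ^ (r + 1) / (r + 1) - N ^ (r + 1) / (r + 1) * (τ ^ 2 / 96) -
          N ^ (r + 1) / (r + 1) * (τ ^ 4 / 1536) - N ^ (r + 1) / (r + 1) * 0.0001 := by ring
      rw [e9]
      linarith
    have hred := h2 r _ y k (by linarith) (by omega) hD key
    refine hred.trans ?_
    rw [mul_comm (1.012 : ℝ)]
    refine mul_le_mul_of_nonneg_left ?_ hbase.le
    rw [div_le_iff₀ hD]
    have := h3.2.2.2 τ hτ0.le h5
    rw [hτ] at this ⊢
    exact this
  · push Not at h5
    have hk0 : (0 : ℝ) < k := by linarith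
    have hSge := S_ge k r (by linarith)
    have hkr : 0 < (k : ℝ) ^ (r + 1) / (r + 1) := by
      have := Real.rpow_pos_of_pos hk0 (r + 1)
      positivity
    have hS0 : 0 < S k r := lt_of_lt_of_le hkr hSge
    have hYe : 2 * (y : ℝ) + 1 = 2 * (N - m) := by rw [hN, hm]; ring
    have hNm : 0 < N - m := by nlinarith
    have hG : G y k r ≤ (2 * (y : ℝ) + 1) ^ r * m / ((k : ℝ) ^ (r + 1) / (r + 1)) := by
      unfold G
      rw [← hm]
      refine div_le_div_of_nonneg_left ?_ hkr hSge
      have : 0 ≤ (2 * (y : ℝ) + 1) ^ r := by positivity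
      positivity
    have hG2 : (2 * (y : ℝ) + 1) ^ r * m / ((k : ℝ) ^ (r + 1) / (r + 1)) =
        2 ^ r * (m * (r + 1) / k) * ((N - m) / k) ^ r := by
      rw [hYe, Real.mul_rpow (by norm_num) hNm.le, Real.div_rpow hNm.le hk0.le,
        Real.rpow_add hk0, Real.rpow_one]
      have := Real.rpow_pos_of_pos hk0 r
      field_simp
    rw [hG2] at hG
    refine hG.trans ?_
    have a1 : m * (r + 1) / k ≤ 1.1 * τ := by
      rw [hτ, div_le_iff₀ hk0]
      have : N ≤ 1.1 * k := by rw [hN]; linarith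
      have e : 1.1 * (m * (r + 1) / N) * k = m * (r + 1) * ((1.1 * k) / N) := by ring
      rw [e]
      have h1' : 1 ≤ (1.1 * k) / N := by rw [le_div_iff₀ hN0]; linarith
      have h2' : 0 ≤ m * (r + 1) := by positivity
      nlinarith
    have a2 : ((N - m) / k) ^ r ≤ Real.exp (-(9 / 16 * τ)) := by
      have e1 : (N - m) / k ≤ Real.exp (-((m - 1 / 2) / k)) := by
        have e2 : (N - m) / k = -((m - 1 / 2) / k) + 1 := by
          rw [hN]; field_simp; ring
        rw [e2]
        exact Real.add_one_le_exp _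
      calc ((N - m) / k) ^ r ≤ (Real.exp (-((m - 1 / 2) / k))) ^ r :=
            Real.rpow_le_rpow (by positivity) e1 (by linarith)
        _ = Real.exp (-((m - 1 / 2) / k) * r) := by rw [← Real.exp_mul]
        _ ≤ Real.exp (-(9 / 16 * τ)) := by
            apply Real.exp_le_exp.2
            rw [neg_mul, neg_le_neg_iff]
            have b1 : 3 / 4 * m ≤ m - 1 / 2 := by linarith
            have b2 : m / N ≤ m / k := by
              apply div_le_div_of_nonneg_left (by linarith) hk0
              rw [hN]; linarith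
            have b3 : 3 / 4 * (m / N) ≤ (m - 1 / 2) / k := by
              calc 3 / 4 * (m / N) ≤ 3 / 4 * (m / k) := by linarith
                _ = 3 / 4 * m / k := by ring
                _ ≤ (m - 1 / 2) / k := by
                    apply div_le_div_of_nonneg_right b1 hk0.le
            have b4 : 9 / 16 * τ = 3 / 4 * (m / N) * (3 / 4 * (r + 1)) := by
              rw [hτ]; ring
            rw [b4]
            have b5 : 3 / 4 * (r + 1) ≤ r := by linarith
            have b6 : 0 ≤ m / N := by positivity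
            calc 3 / 4 * (m / N) * (3 / 4 * (r + 1)) ≤ 3 / 4 * (m / N) * r :=
                  mul_le_mul_of_nonneg_left b5 (by positivity)
              _ ≤ (m - 1 / 2) / k * r := mul_le_mul_of_nonneg_right b3 (by linarith)
    have a3 : τ * Real.exp (-(9 / 16 * τ)) ≤ 5 * Real.exp (-(45 / 16)) := by
      have c1 : τ / 5 ≤ Real.exp (9 / 16 * (τ - 5)) := by
        have := Real.add_one_le_exp (9 / 16 * (τ - 5))
        linarith
      have c2 : Real.exp (-(45 / 16)) = Real.exp (9 / 16 * (τ - 5)) * Real.exp (-(9 / 16 * τ)) := by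
        rw [← Real.exp_add]
        congr 1
        ring
      rw [c2]
      have c3 : 0 < Real.exp (-(9 / 16 * τ)) := Real.exp_pos _
      nlinarith
    have a4 : 5 * Real.exp (-(45 / 16)) * 1.1 ≤ 0.36 := by
      have d1 : Real.exp (-(45 / 16)) = (Real.exp (-1)) ^ (2.8125 : ℝ) := by
        rw [← Real.exp_mul]
        norm_num
      have d3 : Real.exp (-(45 / 16)) * Real.exp (45 / 16) = 1 := by
        rw [← Real.exp_add]; simp
      have d4 : 15.4 ≤ Real.exp (45 / 16) := by
        have f1 : Real.exp (45 / 16) = Real.exp 1 ^ 2 * Real.exp (13 / 16) := by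
          rw [← Real.exp_nat_mul, ← Real.exp_add]
          congr 1
          norm_num
        have f2 : 2.718 ≤ Real.exp 1 := by
          have := Real.exp_one_gt_d9
          linarith
        have f3 : 2.1 ≤ Real.exp (13 / 16) := by
          have := Real.quadratic_le_exp_of_nonneg (x := 13 / 16) (by norm_num)
          nlinarith [this]
        have f4 : (2.718 : ℝ) ^ 2 ≤ Real.exp 1 ^ 2 := by
          apply pow_le_pow_left₀ (by norm_num) f2
        rw [f1]
        nlinarith
      have d5 : 0 < Real.exp (-(45 / 16)) := Real.exp_pos _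
      nlinarith
    have a5 : (2 : ℝ) ^ r * Real.exp (-1) ≤ base r := by
      unfold base
      have g1 : 2 * r / (r + 1) = 2 * (r / (r + 1)) := by ring
      have g2 : 0 ≤ r / (r + 1) := by positivity
      rw [g1, Real.mul_rpow (by norm_num) g2]
      refine mul_le_mul_of_nonneg_left ?_ (by positivity)
      have g3 : Real.exp (-(1 / r)) ≤ r / (r + 1) := by
        have g4 : 1 / r + 1 ≤ Real.exp (1 / r) := Real.add_one_le_exp _
        have hr0 : 0 < r := by linarith
        rw [Real.exp_neg, inv_eq_one_div, div_le_div_iff₀ (Real.exp_pos _) hr1]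
        have g5 : r * (1 / r + 1) = 1 + r := by field_simp
        nlinarith
      calc Real.exp (-1) = (Real.exp (-(1 / r))) ^ r := by
            rw [← Real.exp_mul]
            congr 1
            field_simp
        _ ≤ (r / (r + 1)) ^ r := Real.rpow_le_rpow (Real.exp_pos _).le g3 (by linarith)
    have a6 : 0.3678 ≤ Real.exp (-1) := by
      have := Real.exp_neg_one_gt_d9
      linarith
    have h2r : (0 : ℝ) < 2 ^ r := by positivity
    calc 2 ^ r * (m * (r + 1) / k) * ((N - m) / k) ^ r
        ≤ 2 ^ r * (1.1 * τ) * Real.exp (-(9 / 16 * τ)) := by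
          apply mul_le_mul _ a2 (by positivity) (by positivity)
          exact mul_le_mul_of_nonneg_left a1 h2r.le
      _ = 2 ^ r * (τ * Real.exp (-(9 / 16 * τ)) * 1.1) := by ring
      _ ≤ 2 ^ r * 0.36 := by
          refine mul_le_mul_of_nonneg_left ?_ h2r.le
          linarith
      _ ≤ 1.012 * base r := by
          have : 2 ^ r * 0.3678 ≤ 2 ^ r * Real.exp (-1) := mul_le_mul_of_nonneg_left a6 h2r.le
          nlinarith
end Pool.Agent.Q77.MHOFF4
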