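import Pool.Agent.Q127.DJ.Stm

set_option autoImplicit false

namespace Pool.Agent.Q77.DJ_REC

open MeasureTheory Filter Topology Pool.Agent.Q127.DJ

variable {m k : ℕ}

theorem dep_mono {f : ℕ → Fin m} {s t : ℕ} (hst : s ≤ t) {ψ : (ℕ → ℕ) → ℝ} (h : Dep f s ψ) :
    Dep f t ψ := by
  intro x y hxy
  apply h
  funext i
  exact congrFun hxy ⟨i.1, lt_of_lt_of_le i.2 hst⟩

theorem bm_nonneg {C : ℝ} {φ : (ℕ → ℕ) → ℝ} (h : BM C φ) : 0 ≤ C :=
  (abs_nonneg _).trans (h.2 fun _ => 0)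

theorem bm_mul {C C' : ℝ} {φ ψ : (ℕ → ℕ) → ℝ} (h : BM C φ) (h' : BM C' ψ) :
    BM (C * C') (fun x => φ x * ψ x) := by
  refine ⟨h.1.mul h'.1, fun x => ?_⟩
  rw [abs_mul]
  exact mul_le_mul (h.2 x) (h'.2 x) (abs_nonneg _) (bm_nonneg h)

theorem D_bound (h3 : S_inn) (μ ν : Measure (ℕ → ℕ)) [IsProbabilityMeasure μ]
    [IsProbabilityMeasure ν] (f : ℕ → Fin m) (h : ℕ → Fin k) (a : Fin m) (b : Fin k) {ε : ℝ}
    (hε0 : 0 ≤ ε) (hε1 : ε ≤ 1) (T U : ℕ) (x y : ℕ → ℕ) :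
    |D μ ν f h a b ε T U x y| ≤ 2 ^ (Finset.Ico T U).card := by
  unfold D
  rw [Finset.abs_prod, ← Finset.prod_const]
  apply Finset.prod_le_prod (fun _ _ => abs_nonneg _)
  intro t _
  have hg := (h3 μ m f a t).2.1.2 x
  have hh := (h3 ν k h b t).2.1.2 y
  have h4 : |ε * g μ f a t x * g ν h b t y| ≤ 1 := by
    rw [abs_mul, abs_mul, abs_of_nonneg hε0]
    exact mul_le_one₀ (mul_le_one₀ hε1 (abs_nonneg _) hg) (abs_nonneg _) hh
  have h5 := abs_add_le (1 : ℝ) (ε * g μ f a t x * g ν h b t y)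
  rw [abs_one] at h5
  linarith

theorem D_meas (h3 : S_inn) (μ ν : Measure (ℕ → ℕ)) [IsProbabilityMeasure μ]
    [IsProbabilityMeasure ν] (f : ℕ → Fin m) (h : ℕ → Fin k) (a : Fin m) (b : Fin k) (ε : ℝ)
    (T U : ℕ) : Measurable (fun p : (ℕ → ℕ) × (ℕ → ℕ) => D μ ν f h a b ε T U p.1 p.2) := by
  unfold D
  apply Finset.measurable_fun_prod
  intro t _
  have hg := (h3 μ m f a t).2.1.1
  have hh := (h3 ν k h b t).2.1.1
  exact measurable_const.add ((measurable_const.mul (hg.comp measurable_fst)).mul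
    (hh.comp measurable_snd))

theorem D_bmy (h3 : S_inn) (μ ν : Measure (ℕ → ℕ)) [IsProbabilityMeasure μ]
    [IsProbabilityMeasure ν] (f : ℕ → Fin m) (h : ℕ → Fin k) (a : Fin m) (b : Fin k) {ε : ℝ}
    (hε0 : 0 ≤ ε) (hε1 : ε ≤ 1) (T U : ℕ) (x : ℕ → ℕ) :
    BM (2 ^ (Finset.Ico T U).card) (fun y => D μ ν f h a b ε T U x y) ∧
      Dep h U (fun y => D μ ν f h a b ε T U x y) := by
  refine ⟨⟨(D_meas h3 μ ν f h a b ε T U).comp (measurable_const.prodMk measurable_id),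
    fun y => D_bound h3 μ ν f h a b hε0 hε1 T U x y⟩, ?_⟩
  intro y y' hyy
  unfold D
  refine Finset.prod_congr rfl fun t ht => ?_
  rw [Finset.mem_Ico] at ht
  have := dep_mono (t := U) (by omega) (h3 ν k h b t).1 y y' hyy
  rw [this]

theorem D_bmx (h3 : S_inn) (μ ν : Measure (ℕ → ℕ)) [IsProbabilityMeasure μ]
    [IsProbabilityMeasure ν] (f : ℕ → Fin m) (h : ℕ → Fin k) (a : Fin m) (b : Fin k) {ε : ℝ}
    (hε0 : 0 ≤ ε) (hε1 : ε ≤ 1) (T U : ℕ) (y : ℕ → ℕ) :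
    BM (2 ^ (Finset.Ico T U).card) (fun x => D μ ν f h a b ε T U x y) ∧
      Dep f U (fun x => D μ ν f h a b ε T U x y) := by
  refine ⟨⟨(D_meas h3 μ ν f h a b ε T U).comp (measurable_id.prodMk measurable_const),
    fun x => D_bound h3 μ ν f h a b hε0 hε1 T U x y⟩, ?_⟩
  intro x x' hxx
  unfold D
  refine Finset.prod_congr rfl fun t ht => ?_
  rw [Finset.mem_Ico] at ht
  have := dep_mono (t := U) (by omega) (h3 μ m f a t).1 x x' hxx
  rw [this]

theorem int_all (h3 : S_inn) (μ ν : Measure (ℕ → ℕ)) [IsProbabilityMeasure μ]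
    [IsProbabilityMeasure ν] (f : ℕ → Fin m) (h : ℕ → Fin k) (a : Fin m) (b : Fin k) {ε : ℝ}
    (hε0 : 0 ≤ ε) (hε1 : ε ≤ 1) (T U : ℕ) {C C' : ℝ} {φ ψ : (ℕ → ℕ) → ℝ} (hφ : BM C φ)
    (hψ : BM C' ψ) :
    Integrable (Function.uncurry fun x y => φ x * ψ y * D μ ν f h a b ε T U x y) (μ.prod ν) := by
  refine Integrable.of_bound (C := C * C' * 2 ^ (Finset.Ico T U).card) ?_ ?_
  · exact (((hφ.1.comp measurable_fst).mul (hψ.1.comp measurable_snd)).mul
      (D_meas h3 μ ν f h a b ε T U)).aestronglyMeasurable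
  · refine Eventually.of_forall fun p => ?_
    simp only [Function.uncurry, Real.norm_eq_abs, abs_mul]
    exact mul_le_mul (mul_le_mul (hφ.2 _) (hψ.2 _) (abs_nonneg _) (bm_nonneg hφ))
      (D_bound h3 μ ν f h a b hε0 hε1 T U _ _) (abs_nonneg _)
      (mul_nonneg (bm_nonneg hφ) (bm_nonneg hψ))

theorem key (h1 : S_ce1) (h2 : S_ce2) (h3 : S_inn) (μ ν : Measure (ℕ → ℕ)) [IsProbabilityMeasure μ]
    [IsProbabilityMeasure ν] (f : ℕ → Fin m) (h : ℕ → Fin k) (a : Fin m) (b : Fin k) {ε : ℝ}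
    (hε0 : 0 ≤ ε) (hε1 : ε ≤ 1) (T U : ℕ) {C C' : ℝ} {φ ψ : (ℕ → ℕ) → ℝ} (hφ : BM C φ)
    (hψ : BM C' ψ) :
    ∫ x, ∫ y, φ x * ψ y * D μ ν f h a b ε T U x y ∂ν ∂μ =
      ∫ x, ∫ y, E μ f U φ x * E ν h U ψ y * D μ ν f h a b ε T U x y ∂ν ∂μ := by
  have hEφ := (h1 μ m f U C φ (bm_nonneg hφ) hφ).2
  have hEψ := (h1 ν k h U C' ψ (bm_nonneg hψ) hψ).2
  have e1 : ∀ x, ∫ y, φ x * ψ y * D μ ν f h a b ε T U x y ∂ν =
      ∫ y, φ x * E ν h U ψ y * D μ ν f h a b ε T U x y ∂ν := by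
    intro x
    obtain ⟨hb, hd⟩ := D_bmy h3 μ ν f h a b hε0 hε1 T U x
    have h4 := h2 ν k h U C' _ ψ (fun y => D μ ν f h a b ε T U x y) hψ hb hd
    calc ∫ y, φ x * ψ y * D μ ν f h a b ε T U x y ∂ν
        = ∫ y, φ x * (D μ ν f h a b ε T U x y * ψ y) ∂ν := by
          refine integral_congr_ae (Eventually.of_forall fun y => ?_)
          simp only
          ring
      _ = φ x * ∫ y, D μ ν f h a b ε T U x y * ψ y ∂ν := integral_const_mul _ _
      _ = φ x * ∫ y, D μ ν f h a b ε T U x y * E ν h U ψ y ∂ν := by rw [h4]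
      _ = ∫ y, φ x * (D μ ν f h a b ε T U x y * E ν h U ψ y) ∂ν := (integral_const_mul _ _).symm
      _ = _ := by
          refine integral_congr_ae (Eventually.of_forall fun y => ?_)
          simp only
          ring
  have e2 : ∀ y, ∫ x, φ x * E ν h U ψ y * D μ ν f h a b ε T U x y ∂μ =
      ∫ x, E μ f U φ x * E ν h U ψ y * D μ ν f h a b ε T U x y ∂μ := by
    intro y
    obtain ⟨hb, hd⟩ := D_bmx h3 μ ν f h a b hε0 hε1 T U y
    have h4 := h2 μ m f U C _ φ (fun x => D μ ν f h a b ε T U x y) hφ hb hd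
    calc ∫ x, φ x * E ν h U ψ y * D μ ν f h a b ε T U x y ∂μ
        = ∫ x, E ν h U ψ y * (D μ ν f h a b ε T U x y * φ x) ∂μ := by
          refine integral_congr_ae (Eventually.of_forall fun x => ?_)
          simp only
          ring
      _ = E ν h U ψ y * ∫ x, D μ ν f h a b ε T U x y * φ x ∂μ := integral_const_mul _ _
      _ = E ν h U ψ y * ∫ x, D μ ν f h a b ε T U x y * E μ f U φ x ∂μ := by rw [h4]
      _ = ∫ x, E ν h U ψ y * (D μ ν f h a b ε T U x y * E μ f U φ x) ∂μ :=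
          (integral_const_mul _ _).symm
      _ = _ := by
          refine integral_congr_ae (Eventually.of_forall fun x => ?_)
          simp only
          ring
  calc ∫ x, ∫ y, φ x * ψ y * D μ ν f h a b ε T U x y ∂ν ∂μ
      = ∫ x, ∫ y, φ x * E ν h U ψ y * D μ ν f h a b ε T U x y ∂ν ∂μ :=
        integral_congr_ae (Eventually.of_forall e1)
    _ = ∫ y, ∫ x, φ x * E ν h U ψ y * D μ ν f h a b ε T U x y ∂μ ∂ν :=
        integral_integral_swap (int_all h3 μ ν f h a b hε0 hε1 T U hφ hEψ)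
    _ = ∫ y, ∫ x, E μ f U φ x * E ν h U ψ y * D μ ν f h a b ε T U x y ∂μ ∂ν :=
        integral_congr_ae (Eventually.of_forall e2)
    _ = _ := (integral_integral_swap (int_all h3 μ ν f h a b hε0 hε1 T U hEφ hEψ)).symm

theorem base (μ ν : Measure (ℕ → ℕ)) (f : ℕ → Fin m) (h : ℕ → Fin k) (a : Fin m) (b : Fin k)
    (ε : ℝ) (T U : ℕ) (hU : U ≤ T) (φ ψ : (ℕ → ℕ) → ℝ) :
    ∫ x, ∫ y, φ x * ψ y * D μ ν f h a b ε T U x y ∂ν ∂μ = (∫ x, φ x ∂μ) * (∫ y, ψ y ∂ν) := by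
  have e : ∀ x y, φ x * ψ y * D μ ν f h a b ε T U x y = φ x * ψ y := by
    intro x y
    rw [D, Finset.Ico_eq_empty_of_le hU, Finset.prod_empty, mul_one]
  simp only [e, integral_const_mul, integral_mul_const]

theorem rec (h1 : S_ce1) (h2 : S_ce2) (h3 : S_inn) : S_rec := by
  intro μ ν _ _ m k f h a b ε C C' T U φ ψ hε0 hε1 hφ hψ
  induction U with
  | zero =>
    rw [base μ ν f h a b ε T 0 (Nat.zero_le _) φ ψ, Finset.Ico_eq_empty_of_le (Nat.zero_le T),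
      Finset.sum_empty, mul_zero, add_zero]
  | succ U ih =>
    by_cases hTU : T ≤ U
    · rw [Finset.sum_Ico_succ_top hTU, mul_add, ← add_assoc, ← ih]
      have hg := (h3 μ m f a U).2.1
      have hh := (h3 ν k h b U).2.1
      have hgφ := bm_mul hg hφ
      have hhψ := bm_mul hh hψ
      rw [← key h1 h2 h3 μ ν f h a b hε0 hε1 T U hgφ hhψ]
      have e : ∀ x y, φ x * ψ y * D μ ν f h a b ε T (U + 1) x y =
          φ x * ψ y * D μ ν f h a b ε T U x y + ε * ((g μ f a U x * φ x) * (g ν h b U y * ψ y) *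
            D μ ν f h a b ε T U x y) := by
        intro x y
        unfold D
        rw [Finset.prod_Ico_succ_top hTU]
        ring
      have i1 := int_all h3 μ ν f h a b hε0 hε1 T U hφ hψ
      have i2 := int_all h3 μ ν f h a b hε0 hε1 T U hgφ hhψ
      have i3 := int_all h3 μ ν f h a b hε0 hε1 T (U + 1) hφ hψ
      rw [integral_integral i3, integral_integral i1, integral_integral i2]
      simp only [e]
      rw [← integral_const_mul]
      exact integral_add i1 (i2.const_mul ε)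
    · rw [base μ ν f h a b ε T (U + 1) (by omega) φ ψ, Finset.Ico_eq_empty_of_le (by omega),
        Finset.sum_empty, mul_zero, add_zero]

end Pool.Agent.Q77.DJ_REC
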