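import Mathlib
import Pool.Agent.Q82.QD.Stm

set_option autoImplicit false

open MeasureTheory Filter Topology Real InnerProductSpace Laplacian Set
open Pool.Agent.Q82.QC (E Om pp lg bd pot mol Ctl HolderConv S_MASS S_POT0 S_POT3 S_POTH S_POTL S_MOL
  S_MOLI)

namespace Pool.Agent.Q82.QD

theorem nsph_bd_nonneg (y : E) : 0 ≤ bd 1 y := by
  unfold Pool.Agent.Q82.QC.bd
  positivity

/-- change of variables -/
theorem nsph_cov (G : E → ℝ) (r : ℝ) (hr : 0 < r) (p : E) :
    ∫ z, G (r⁻¹ • (z - p)) = r ^ 4 * ∫ z, G z := by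
  have h1 : ∫ z, G (r⁻¹ • (z - p)) = ∫ z, G (r⁻¹ • z) :=
    integral_sub_right_eq_self (fun z => G (r⁻¹ • z)) p
  rw [h1, Measure.integral_comp_smul]
  have h2 : Module.finrank ℝ E = 4 := by simp
  rw [h2, smul_eq_mul, inv_pow, inv_inv, abs_of_pos (by positivity)]

/-- the pointwise lower bound -/
theorem nsph_pt (V U r ε t : ℝ) (hr : 0 < r) (ht : 0 ≤ t) (hε1 : ε < 1) (hV : 6 * (1 - ε) ≤ V)
    (hU : |U + Real.log r - Real.log (2 / (1 + t))| ≤ ε) :
    (1 - ε) * Real.exp (-4 * ε) * ((r ^ 4)⁻¹ * (96 * 1 ^ 4 / (1 ^ 2 + t) ^ 4)) ≤ V * Real.exp (4 * U) := by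
  have h1 : 0 < 2 / (1 + t) := by positivity
  have h2 : Real.log (2 / (1 + t)) - Real.log r - ε ≤ U := by
    have := (abs_le.1 hU).1
    linarith
  have h3 : Real.exp (4 * (Real.log (2 / (1 + t)) - Real.log r - ε)) ≤ Real.exp (4 * U) :=
    Real.exp_le_exp.2 (by linarith)
  have h4 : Real.exp (4 * (Real.log (2 / (1 + t)) - Real.log r - ε)) =
      (2 / (1 + t)) ^ 4 * (r ^ 4)⁻¹ * Real.exp (-4 * ε) := by
    rw [show 4 * (Real.log (2 / (1 + t)) - Real.log r - ε) =
      (4 : ℕ) * Real.log (2 / (1 + t)) + (-((4 : ℕ) * Real.log r)) + -4 * ε by push_cast; ring,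
      Real.exp_add, Real.exp_add, Real.exp_neg, ← Real.log_pow, ← Real.log_pow,
      Real.exp_log (by positivity), Real.exp_log (by positivity)]
  rw [h4] at h3
  have h5 : 0 ≤ 1 - ε := by linarith
  have h6 : 6 * (1 - ε) * ((2 / (1 + t)) ^ 4 * (r ^ 4)⁻¹ * Real.exp (-4 * ε)) ≤ V * Real.exp (4 * U) :=
    mul_le_mul hV h3 (by positivity) (le_trans (by positivity) hV)
  refine le_trans (le_of_eq ?_) h6
  field_simp
  ring

theorem nsph (h1 : Pool.Agent.Q82.QC.S_MASS) : S_NSPH := by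
  rintro V u m hm - hint hV hlim ⟨x, s, hx, hr, hs, hK⟩
  obtain ⟨hbi, hbm⟩ := h1 1 one_pos
  have hR : ∃ n : ℕ, m < ∫ y in Metric.closedBall (0 : E) n, bd 1 y := by
    have ht : Tendsto (fun n : ℕ => ∫ y in Metric.closedBall (0 : E) n, bd 1 y) atTop
        (𝓝 (∫ y in ⋃ n : ℕ, Metric.closedBall (0 : E) n, bd 1 y)) :=
      tendsto_setIntegral_of_monotone (fun n => measurableSet_closedBall)
        (fun a b h => Metric.closedBall_subset_closedBall (by exact_mod_cast h)) hbi.integrableOn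
    rw [Metric.iUnion_closedBall_nat, setIntegral_univ, hbm] at ht
    exact (ht.eventually (lt_mem_nhds hm)).exists
  obtain ⟨R, hR⟩ := hR
  obtain ⟨I, hI⟩ : ∃ I, I = ∫ y in Metric.closedBall (0 : E) R, bd 1 y := ⟨_, rfl⟩
  rw [← hI] at hR
  have hε : ∃ ε : ℝ, 0 < ε ∧ ε < 1 ∧ m < (1 - ε) * Real.exp (-4 * ε) * I := by
    have hc : Continuous (fun ε : ℝ => (1 - ε) * Real.exp (-4 * ε) * I) := by fun_prop
    have ht : Tendsto (fun ε : ℝ => (1 - ε) * Real.exp (-4 * ε) * I) (𝓝[>] 0)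
        (𝓝 ((1 - 0) * Real.exp (-4 * 0) * I)) := (hc.tendsto 0).mono_left nhdsWithin_le_nhds
    rw [mul_zero, Real.exp_zero, sub_zero, one_mul, one_mul] at ht
    have h2 : ∀ᶠ ε : ℝ in 𝓝[>] 0, ε ∈ Ioo (0 : ℝ) 1 := Ioo_mem_nhdsGT one_pos
    obtain ⟨ε, h3, h4⟩ := ((ht.eventually (lt_mem_nhds hR)).and h2).exists
    exact ⟨ε, h4.1, h4.2, h3⟩
  obtain ⟨ε, hε0, hε1, hεm⟩ := hε
  -- the function `G`
  let G : E → ℝ := (Metric.closedBall (0 : E) R).indicator (bd 1)
  have hGi : Integrable G := hbi.indicator measurableSet_closedBall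
  have hGI : ∫ z, G z = I := by rw [hI]; exact integral_indicator measurableSet_closedBall
  -- eventually
  have e1 : ∀ᶠ k in atTop, dist (x k) x0 < 1 / 4 := by
    have := (Metric.tendsto_nhds.1 hx) (1 / 4) (by norm_num)
    exact this
  have e2 : ∀ᶠ k in atTop, (R : ℝ) * (2 * Real.exp (-u k (x k))) < 1 / 4 := by
    have h2 : Tendsto (fun k => (R : ℝ) * (2 * Real.exp (-u k (x k)))) atTop (𝓝 ((R : ℝ) * 0)) :=
      hr.const_mul _
    rw [mul_zero] at h2
    exact h2.eventually (gt_mem_nhds (by norm_num))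
  have e3 : ∀ᶠ k in atTop, ∀ z ∈ Metric.ball x0 (1 / 2), dist (6 : ℝ) (V k z) < 6 * ε :=
    (Metric.tendstoUniformlyOn_iff.1 hV) (6 * ε) (by positivity)
  have e4 := hK (Metric.closedBall (0 : E) R) (isCompact_closedBall _ _) ε hε0
  have key : ∀ᶠ j in atTop, (1 - ε) * Real.exp (-4 * ε) * I ≤
      ∫ z in Metric.ball x0 (1 / 2), V (s j) z * Real.exp (4 * u (s j) z) := by
    filter_upwards [hs.tendsto_atTop.eventually e1, hs.tendsto_atTop.eventually e2,
      hs.tendsto_atTop.eventually e3, e4] with j g1 g2 g3 g4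
    obtain ⟨k, hk⟩ : ∃ k, k = s j := ⟨_, rfl⟩
    rw [← hk] at g1 g2 g3 g4 ⊢
    obtain ⟨r, hrr⟩ : ∃ r, r = 2 * Real.exp (-u k (x k)) := ⟨_, rfl⟩
    rw [← hrr] at g2 g4
    have hr0 : 0 < r := by rw [hrr]; positivity
    have hin : ∀ z : E, r⁻¹ • (z - x k) ∈ Metric.closedBall (0 : E) R → z ∈ Metric.ball x0 (1 / 2) := by
      intro z hz
      rw [mem_closedBall_zero_iff, norm_smul, norm_inv, Real.norm_eq_abs, abs_of_pos hr0] at hz
      have h2 : ‖z - x k‖ ≤ R * r := by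
        have := mul_le_mul_of_nonneg_right hz hr0.le
        have e : r⁻¹ * ‖z - x k‖ * r = ‖z - x k‖ := by field_simp
        linarith
      rw [Metric.mem_ball]
      calc dist z x0 ≤ dist z (x k) + dist (x k) x0 := dist_triangle _ _ _
        _ < 1 / 4 + 1 / 4 := by rw [dist_eq_norm z]; exact add_lt_add (lt_of_le_of_lt h2 g2) g1
        _ = 1 / 2 := by norm_num
    have hint2 : Integrable (fun z => (1 - ε) * Real.exp (-4 * ε) * ((r ^ 4)⁻¹ * G (r⁻¹ • (z - x k)))) := by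
      apply Integrable.const_mul
      apply Integrable.const_mul
      exact (hGi.comp_smul (inv_ne_zero hr0.ne')).comp_sub_right (x k)
    have hle : ∀ z ∈ Metric.ball x0 (1 / 2),
        (1 - ε) * Real.exp (-4 * ε) * ((r ^ 4)⁻¹ * G (r⁻¹ • (z - x k))) ≤ V k z * Real.exp (4 * u k z) := by
      intro z hz
      have hVz : 6 * (1 - ε) ≤ V k z := by
        have := g3 z hz
        rw [Real.dist_eq] at this
        have := (abs_lt.1 this).2
        linarith
      have h50 : 0 ≤ 1 - ε := by linarith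
      by_cases hzR : r⁻¹ • (z - x k) ∈ Metric.closedBall (0 : E) R
      · have h2 := g4 _ hzR
        have h3 : x k + r • (r⁻¹ • (z - x k)) = z := by
          rw [smul_smul, mul_inv_cancel₀ hr0.ne', one_smul]
          abel
        rw [h3] at h2
        have h4 := nsph_pt (V k z) (u k z) r ε (‖r⁻¹ • (z - x k)‖ ^ 2) hr0 (by positivity) hε1 hVz h2
        have h5 : G (r⁻¹ • (z - x k)) = 96 * 1 ^ 4 / (1 ^ 2 + ‖r⁻¹ • (z - x k)‖ ^ 2) ^ 4 :=
          Set.indicator_of_mem hzR _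
        rw [h5]
        exact h4
      · have h5 : G (r⁻¹ • (z - x k)) = 0 := Set.indicator_of_notMem hzR _
        rw [h5, mul_zero, mul_zero]
        exact mul_nonneg (le_trans (by positivity) hVz) (Real.exp_pos _).le
    calc (1 - ε) * Real.exp (-4 * ε) * I
        = ∫ z, (1 - ε) * Real.exp (-4 * ε) * ((r ^ 4)⁻¹ * G (r⁻¹ • (z - x k))) := by
          rw [integral_const_mul, integral_const_mul, nsph_cov G r hr0, hGI]
          field_simp
      _ = ∫ z in Metric.ball x0 (1 / 2),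
            (1 - ε) * Real.exp (-4 * ε) * ((r ^ 4)⁻¹ * G (r⁻¹ • (z - x k))) := by
          symm
          apply setIntegral_eq_integral_of_forall_compl_eq_zero
          intro z hz
          have h5 : G (r⁻¹ • (z - x k)) = 0 :=
            Set.indicator_of_notMem (fun h => hz (hin z h)) _
          rw [h5, mul_zero, mul_zero]
      _ ≤ ∫ z in Metric.ball x0 (1 / 2), V k z * Real.exp (4 * u k z) :=
          setIntegral_mono_on hint2.integrableOn (hint k) measurableSet_ball hle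
  have hfin := ge_of_tendsto (hlim.comp hs.tendsto_atTop) key
  linarith

end Pool.Agent.Q82.QD
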